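import Pool.Agent.TTC.StmtsF

set_option autoImplicit false

/-!
# Squad TTC, part 5: all curves `y^2 = F(x)` of genus 2 and all number fields (idea of helper36)

THEOREM (row MU7). As `Mul6Stmt` of StmtsF, with a weaker hypothesis (the special fibre has degree 6, a double
root, NO triple root and at least one SIMPLE root) and a stronger conclusion `Good7`: for every number field K of
degree <= d in which F splits there is a root α of F in K such that the torsion of J(K) (odd model at α) is bounded.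
No condition on the degrees of the roots is left: J(L) is contained in J(L(roots of F)) for every L.
WHY: modulo a good prime p some root of F reduces to a simple root, and one of the six roots does this for at least
one sixth of the primes.
Rules as in `TTC/Stmts.lean`; rows import `Pool.Agent.TTC.StmtsG`.
-/

namespace Pool.Agent.TTC

open Polynomial NumberField

/-- no triple root, a double root, a simple root -/
def Dns {k : Type} [Field k] (F : k[X]) : Prop :=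
  (∀ z : k, ¬ (F.eval z = 0 ∧ (derivative F).eval z = 0 ∧
    (derivative (derivative F)).eval z = 0)) ∧
  (∃ z : k, F.eval z = 0 ∧ (derivative F).eval z = 0) ∧
  ∃ z : k, F.eval z = 0 ∧ (derivative F).eval z ≠ 0

/-- `Res(F', F'' + m F)`, formal degrees 5, 6 -/
noncomputable def r6 {R : Type} [CommRing R] (m : ℕ) (a : Fin 7 → R) : R :=
  resultant (derivative (sext a)) (derivative (derivative (sext a)) + C (m : R) * sext a) 5 6

/-- `6 a_0 (c_1 + j c_2) Res(F', F'' + m F)`, c_i the coefficients of `crit a` -/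
noncomputable def e7 {R : Type} [CommRing R] (j m : ℕ) (a : Fin 7 → R) : R :=
  6 * a 0 * ((crit a).coeff 1 + (j : R) * (crit a).coeff 2) * r6 m a

/-- The conclusion of the theorem for the curve `y^2 = F(x)`, F = sext a. -/
def Good7 (d B : ℕ) (a : Fin 7 → ℤ) : Prop :=
  ((sext a).map (Int.castRingHom ℚ)).natDegree = 6 ∧
  Squarefree ((sext a).map (Int.castRingHom ℚ)) ∧
  ∀ (K : Type) [Field K] [NumberField K], Module.finrank ℚ K ≤ d →
    ((sext a).map (Int.castRingHom K)).Splits →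
    ∃ α : K, ((sext a).map (Int.castRingHom K)).eval α = 0 ∧
    ∀ Y : UBT.OddCurve K, Y.f = om (fun i => ((a i : ℤ) : K)) α → ∀ c : Y.Jac, IsOfFinOrder c →
      orderOf c ≤ B ∨ ∃ M : ℕ, 0 < M ∧ M ≤ B ∧ KDD.H18.ThinAt B Y (c ^ M)

/-- **Row NA7** (naturality; easy; model NA6 `Helper51_TTC/NA6.lean`). -/
def Na7Stmt : Prop :=
  ∀ (R S : Type) [CommRing R] [CommRing S] (φ : R →+* S) (a : Fin 7 → R) (j m : ℕ),
    e7 j m (fun i => φ (a i)) = φ (e7 j m a)

/-- **Row CR7** (medium; model CR6 `Helper1_TTC/CR6.lean`). PROOF. θ_1..θ_5 the roots of F' (degree 5, leading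
coefficient 6 a_0). `crit a = C ((6 a_0)^6) prod_i (X - C (F(θ_i)))` and
`r6 m a = (6 a_0)^6 prod_i (F''(θ_i) + m F(θ_i))` (`resultant_eq_prod_eval`, formal degrees 5, 6).
(1) d6 a = 0: some `F(θ_i) = 0`, a double root. `r6 ≠ 0`: no common root of F, F', F''. `c_1 + j c_2 ≠ 0`: `X^3` does not
divide crit, so at most two indices i have `F(θ_i) = 0`. If F had no simple root, all roots of F would be
double (no triple root): `F = a_0 (x-u)^2 (x-v)^2 (x-w)^2`, u, v, w different, three indices: contradiction. (Or: all distinct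
roots ρ of F have multiplicity exactly 2, their multiplicities sum to 6, so there are 3 of them, all roots of F'.)
(2) Let r be the number of double roots of F; 2 r + (number of simple roots) = 6 and there is a simple root, so r is
1 or 2. A root θ of F' with F(θ) = 0 is a double root of F and a simple root of F' (`F''(θ) ≠ 0`): exactly r
indices i have `F(θ_i) = 0`, so `crit = X^r G` with `G(0) ≠ 0`: c_0 = 0, and c_1 ≠ 0 (j = 0) or c_1 = 0, c_2 ≠ 0 (j = 1). For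
every i at most one m has `F''(θ_i) + m F(θ_i) = 0` (none if `F(θ_i) = 0`; char 0), so one of the six values
m = 0..5 is good for all five i. -/
def Cr7Stmt : Prop :=
  (∀ (k : Type) [Field k] [IsAlgClosed k] (a : Fin 7 → k) (j m : ℕ), (6 : k) ≠ 0 → a 0 ≠ 0 →
    d6 a = 0 → e7 j m a ≠ 0 → Dns (sext a)) ∧
  ∀ a : Fin 7 → ℂ, a 0 ≠ 0 → Dns (sext a) → d6 a = 0 ∧ ∃ j ≤ 1, ∃ m ≤ 5, e7 j m a ≠ 0

/-- **Row MD7** (total degrees; easy; model MD6 `Helper36_TTC/MD6.lean`). PROOF. All coefficients (in y) of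
crit F have total degree <= 11 k, `r6 m F` too (11 x 11 Sylvester matrix with entries of total degree <= k). -/
def Md7Stmt : Prop :=
  ∀ (m k : ℕ) (F : Fin 7 → MvPolynomial (Fin (m + 1)) ℤ), (∀ i, (F i).totalDegree ≤ k) →
    (d6 F).totalDegree ≤ 24 * k ∧ ∀ j n : ℕ, (e7 j n F).totalDegree ≤ 24 * k

/-- **Row BN7** (sizes; easy-medium; model BN6 `Helper52_TTC/BN6.lean`). -/
def Bn7Stmt : Prop :=
  ∀ k : ℕ, ∃ A : ℕ, ∀ (H : ℕ) (F : Fin 7 → ℤ[X]), 1 ≤ H → (∀ i, Siz k H (F i)) →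
    Siz A (A * (H : ℤ) ^ A) (d6 F) ∧
      ∀ j ≤ 1, ∀ m ≤ 5, Siz A (A * (H : ℤ) ^ A) (e7 j m F)

/-- **Row OM7** (easy; the proof of OM2, `Helper59_TTC/OM2.lean`, uses only this). -/
def Om7Stmt : Prop :=
  ∀ (k : Type) [Field k] [IsAlgClosed k] (a : Fin 7 → k) (α : k), (6 : k) ≠ 0 → a 0 ≠ 0 →
    (sext a).eval α = 0 → (derivative (sext a)).eval α ≠ 0 → Dns (sext a) →
    (∀ z : k, ¬ ((om a α).eval z = 0 ∧ (derivative (om a α)).eval z = 0 ∧
      (derivative (derivative (om a α))).eval z = 0)) ∧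
    ∃ z : k, (om a α).eval z = 0 ∧ (derivative (om a α)).eval z = 0

/-- **Row LO7** (uses NA6, NA7, CR7, OM7; model LO6 `Helper75_TTC/LO6.lean`; easy-medium). -/
def Lo7Stmt : Prop :=
  ∀ (K : Type) [Field K] [NumberField K] (v : FinitePlace K) (a : Fin 7 → ℤ) (α : K) (p j m : ℕ),
    p.Prime → v (p : K) < 1 → (p : ℤ) ∣ d6 a → ¬ (p : ℤ) ∣ e7 j m a →
    ((sext a).map (Int.castRingHom K)).eval α = 0 →
    v ((derivative ((sext a).map (Int.castRingHom K))).eval α) = 1 →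
    KDD.CubeFree v.val (om (fun i => ((a i : ℤ) : K)) α) ∧
      v (discr (om (fun i => ((a i : ℤ) : K)) α)) < 1

/-- **Row SI7** (a root with simple reduction; medium; uses NA6, NA7, CR7). PROOF. O, κ, k, ρ : O → k as in LO6.
`v a_0 = 1` (p does not divide `6 a_0`). Over K: `F = a_0 prod (x - α_i)` (it splits), all α_i ∈ O (a_0 α_i is
integral over ℤ, or `root_le` in LO6). So `Fbar = a_0bar prod (x - ρ α_i)`. NA6, NA7 for ℤ → k, CR7 (1): Fbar has a
simple root z; z = ρ α_i for some i, and `ρ (F'(α_i)) = Fbar'(ρ α_i) ≠ 0`: `v (F'(α_i)) = 1`. -/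
def Si7Stmt : Prop :=
  ∀ (K : Type) [Field K] [NumberField K] (v : FinitePlace K) (a : Fin 7 → ℤ) (p j m : ℕ),
    p.Prime → v (p : K) < 1 → (p : ℤ) ∣ d6 a → ¬ (p : ℤ) ∣ e7 j m a →
    ((sext a).map (Int.castRingHom K)).Splits →
    ∃ α : K, ((sext a).map (Int.castRingHom K)).eval α = 0 ∧
      v ((derivative ((sext a).map (Int.castRingHom K))).eval α) = 1

/-- **Row PG7** (pigeonhole over the roots; easy). PROOF. F over K has degree 6, so 1 to 6 different roots (at least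
one because it splits). For a root α let `P_α` be the set of the p in P with a place v over p with
`v (F'(α)) = 1`. P is the union of the P_α, log p >= 0, so some `P_α` has at least one sixth of the sum. -/
def Pg7Stmt : Prop :=
  ∀ (K : Type) [Field K] [NumberField K] (a : Fin 7 → ℤ) (P : Finset ℕ), a 0 ≠ 0 →
    ((sext a).map (Int.castRingHom K)).Splits →
    (∀ p ∈ P, ∃ (v : FinitePlace K) (α : K), v (p : K) < 1 ∧
      ((sext a).map (Int.castRingHom K)).eval α = 0 ∧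
      v ((derivative ((sext a).map (Int.castRingHom K))).eval α) = 1) →
    ∃ α : K, ((sext a).map (Int.castRingHom K)).eval α = 0 ∧ ∃ P' ⊆ P,
      ∑ p ∈ P, Real.log p ≤ 6 * ∑ p ∈ P', Real.log p ∧
      ∀ p ∈ P', ∃ v : FinitePlace K, v (p : K) < 1 ∧
        v ((derivative ((sext a).map (Int.castRingHom K))).eval α) = 1

/-- **Row FA7** (model FA6 `Helper46_TTC/FA6.lean`; uses NA6, NA7, SF6, BN7, FacStmt, Cn2Stmt, OM1, SI7, LO7,
HT6, PG7, PL6, KDD.H18.KddPStatement). PROOF. As FA6 with E = e7 j m F (j, m from the hypothesis) and ε/6. For K in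
which F splits: for every p in P (P as in FA6) a place v over p exists (`ex_place` of `Helper40_TTC/PLC.lean`), SI7 gives a
root; PG7 gives α and P'; LO7 and PL6 for P' and α. -/
def Fam7Stmt : Prop :=
  ∀ (d k : ℕ) (δ : ℝ), 0 < δ → ∃ (B : ℕ) (C : ℝ), 0 < C ∧ ∀ (H : ℕ) (F : Fin 7 → ℤ[X]), 1 ≤ H →
    (∀ i, Siz k H (F i)) →
    (∃ t : ℂ, d6 (fun i => aeval t (F i)) ≠ 0) →
    (∃ t : ℂ, d6 (fun i => aeval t (F i)) = 0 ∧
      ∃ j ≤ 1, ∃ m ≤ 5, e7 j m (fun i => aeval t (F i)) ≠ 0) →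
    ({t : ℤ | |t| ≤ (H : ℤ) ∧ ¬ Good7 d B (fun i => (F i).eval t)}.ncard : ℝ)
      ≤ C * (H : ℝ) ^ δ

/-- the algebraic form of the hypothesis on the family -/
def Nodal7 {m : ℕ} (F : Fin 7 → MvPolynomial (Fin (m + 1)) ℤ) : Prop :=
  (∃ t : Fin (m + 1) → ℂ, d6 (fun i => MvPolynomial.aeval t (F i)) ≠ 0) ∧
  ∃ t : Fin (m + 1) → ℂ, d6 (fun i => MvPolynomial.aeval t (F i)) = 0 ∧
    ∃ j ≤ 1, ∃ n ≤ 5, e7 j n (fun i => MvPolynomial.aeval t (F i)) ≠ 0

/-- **Row LI7** (lines; model LI6 `Helper62_TTC/LI6.lean`; uses NA6, NA7, Sb1, Sb2, Dir, Ndg, MD7, Lsz, Fam7Stmt).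
PROOF. As LI6 with `L = 24 k + 1`, `K = (24 k)^2`, E = (e7 j n F).map for the j, n of the hypothesis. -/
def Lin7Stmt : Prop :=
  ∀ (d k m : ℕ) (δ : ℝ), 0 < δ → ∃ (B L K : ℕ) (C : ℝ), 0 < C ∧ 1 ≤ L ∧
    ∀ (H : ℕ) (F : Fin 7 → MvPolynomial (Fin (m + 1)) ℤ) (i₀ : Fin (m + 1)), 1 ≤ H →
    (∀ i, MSiz k H (F i)) → Nodal7 F →
    ∃ (a : Fin m → ℕ) (R : MvPolynomial (Fin m) ℂ), (∀ j, a j ≤ L) ∧ R ≠ 0 ∧ R.totalDegree ≤ K ∧
      ∀ b : Fin m → ℤ, (∀ j, |b j| ≤ 2 * (L : ℤ) * H) →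
        MvPolynomial.eval (fun j => ((b j : ℤ) : ℂ)) R ≠ 0 →
        ({s : ℤ | |s| ≤ (H : ℤ) ∧
          ¬ Good7 d B (fun i => MvPolynomial.eval (pt i₀ a s b) (F i))}.ncard : ℝ)
          ≤ C * (H : ℝ) ^ δ

/-- **Row MU7** (union bound; `Helper40_TTC/MU6.lean` with Good7, Nodal7; uses Sb1, Szb, Lin7Stmt). -/
def Mul7Stmt : Prop :=
  ∀ (d k m : ℕ) (δ : ℝ), 0 < δ → ∃ (B : ℕ) (C : ℝ), 0 < C ∧
    ∀ (H : ℕ) (F : Fin 7 → MvPolynomial (Fin (m + 1)) ℤ) (T : Fin (m + 1) → ℕ) (i₀ : Fin (m + 1)),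
    (∀ i, 1 ≤ T i ∧ T i ≤ H ∧ T i₀ ≤ T i) → (∀ i, MSiz k H (F i)) → Nodal7 F →
    ({t : Fin (m + 1) → ℤ | (∀ i, |t i| ≤ (T i : ℤ)) ∧
        ¬ Good7 d B (fun i => MvPolynomial.eval t (F i))}.ncard : ℝ) * (T i₀ : ℝ)
      ≤ C * (H : ℝ) ^ δ * ∏ i, (T i : ℝ)

end Pool.Agent.TTC
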