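import Pool.Agent.KDD.Stmts

set_option autoImplicit false

/-!
# Squad TTC (MP_160b6c_nt): torsion of genus 2 Jacobians outside a thin set of quintics

THEOREM (row TOT, `TTC/StmtsB.lean`). For all d and δ > 0 there are B, C such that for all H >= 1, all
but C H^(10+δ) of the about H^15 monic integer quintics `x^5 + a_0 x^4 + .. + a_4`, `|a_i| <= H^(i+1)`,
are squarefree and for EVERY number field K of degree <= d every torsion point c of J(K) has order <= B
or a multiple M c, 1 <= M <= B, in a thin subgroup of degree <= B. From the proved theorem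
`KddPStatement` (Szpiro ratio, pointwise exception) by an elementary count.

RULES. File `Pool/Agent/HelperNN_TTC/XXX.lean`, `import Pool.Agent.TTC.Stmts` (rows FIB, TOT:
`Pool.Agent.TTC.StmtsB`), namespace `Pool.Agent.TTC.HNN`, theorem `xxx (hypotheses = the statements in
the column uses, in this order) : XxxStmt`. No straight double quotes, no `congr!`, `convert`,
`native_decide`, `sorry`.
-/

namespace Pool.Agent.TTC

open Polynomial

/-- `x^5 + a_0 x^4 + a_1 x^3 + a_2 x^2 + a_3 x + c` -/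
noncomputable def qp (a : Fin 4 → ℤ) (c : ℤ) : ℤ[X] :=
  X ^ 5 + C (a 0) * X ^ 4 + C (a 1) * X ^ 3 + C (a 2) * X ^ 2 + C (a 3) * X + C c

/-- `|a_i| <= H^(i+1)` -/
def Box (H : ℕ) (a : Fin 4 → ℤ) : Prop := ∀ i, |a i| ≤ (H : ℤ) ^ (i.val + 1)

/-- `2 Res(f', f'')` (formal degrees 4, 3) for `f = qp a c`; it does not depend on `c`. -/
noncomputable def wr (a : Fin 4 → ℤ) : ℤ :=
  2 * resultant (derivative (qp a 0)) (derivative (derivative (qp a 0))) 4 3

/-- The primes dividing the discriminant of `qp a c` but not `wr a`. -/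
noncomputable def gp (a : Fin 4 → ℤ) (c : ℤ) : Finset ℕ :=
  (discr (qp a c)).natAbs.primeFactors.filter fun p => ¬ (p : ℤ) ∣ wr a

/-- **Row RNK** (Rankin's trick; easy-medium). PROOF. θ = η/(2 A), Y = A H^A (>= n, >= m; if Y < 1
nothing). The number is at most `sum over m with rad m | n of (Y/m)^θ
= Y^θ prod_(p | n) (1 - p^(-θ))⁻¹` (Mathlib:
`EulerProduct.summable_and_hasSum_factoredNumbers_prod_filter_prime_geometric` for the completely
multiplicative function `m ↦ m^(-θ)` on `Nat.factoredNumbers`; or induction over the prime factors of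
n). The factors with `p^θ >= 2` are `<= 2 <= p^θ`, the other primes are `< 2^(1/θ)`, there are boundedly
many and their factors are `<= (1 - 2^(-θ))⁻¹`: the product is `<= C1 n^θ`. Together
`C1 Y^(2θ) = C1 A^(2θ) H^η`. (For 0 < A < 1 the same.) -/
def RnkStmt : Prop :=
  ∀ A η : ℝ, 0 < A → 0 < η → ∃ C : ℝ, 0 < C ∧ ∀ H n : ℕ, 1 ≤ H → 1 ≤ n →
    (n : ℝ) ≤ A * (H : ℝ) ^ A →
    ({m : ℕ | 1 ≤ m ∧ (m : ℝ) ≤ A * (H : ℝ) ^ A ∧
      ∀ p : ℕ, p.Prime → p ∣ m → p ∣ n}.ncard : ℝ) ≤ C * (H : ℝ) ^ η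

/-- **Row DSC** (the discriminant takes each value at most four times in a pencil; easy-medium). PROOF.
f = qp a c is monic of degree 5, so `discr f = resultant f f' 5 4` (`resultant_deriv`, sign
`(-1)^10`). Over ℂ (`resultant_map_map`, `resultant_comm`, `resultant_eq_prod_eval`; ℂ is algebraically
closed) it is `5^5 * prod over the roots θ of f_0' (with multiplicity, 4 of them) of (f_0(θ) + c)`,
f_0 = qp a 0: the value at c of a polynomial of degree 4; minus m it has at most 4 roots. -/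
def DscStmt : Prop :=
  ∀ (a : Fin 4 → ℤ) (m : ℤ), {c : ℤ | discr (qp a c) = m}.Finite ∧
    {c : ℤ | discr (qp a c) = m}.ncard ≤ 4

/-- **Row BND** (crude bounds; easy). PROOF. `|discr f| = |resultant f f' 5 4|` and `wr a / 2` are
determinants of matrices of size 9 and 7 whose entries are coefficients of f, f', f'', all of absolute
value `<= 20 H^5`: `|det| <= 9! (20 H^5)^9` (`Matrix.det_le`); A = `2 * 9! * 20^9` (>= 45). -/
def BndStmt : Prop :=
  ∃ A : ℝ, 0 < A ∧ ∀ (H : ℕ) (a : Fin 4 → ℤ) (c : ℤ), 1 ≤ H → Box H a → |c| ≤ (H : ℤ) ^ 5 →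
    |((discr (qp a c) : ℤ) : ℝ)| ≤ A * (H : ℝ) ^ A ∧ |(wr a : ℝ)| ≤ A * (H : ℝ) ^ A

/-- **Row SQF** (easy). PROOF. `discr ≠ 0`, so `Res(f,f') ≠ 0` over ℚ (`resultant_deriv`,
`resultant_map_map`; `natDegree` is 5 and 4), `f`, `f'` are coprime (`resultant_eq_zero_iff`), f is
separable, so squarefree (`Polynomial.Separable.squarefree`). -/
def SqfStmt : Prop :=
  ∀ (a : Fin 4 → ℤ) (c : ℤ), discr (qp a c) ≠ 0 → Squarefree ((qp a c).map (Int.castRingHom ℚ))

/-- **Row CUB** (good primes give places without triple roots; easy-medium). PROOF. For an integer n: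
`v n <= 1`; if p does not divide n, then `u n + w p = 1` and `v p < 1` give `v n = 1`. So `v 2 = 1` and
`v r = 1` for `r = wr a / 2`. `exists_mul_add_mul_eq_C_resultant` (over ℤ): `f' P + f'' Q = C r`, where
`f' = derivative (qp a c) = derivative (qp a 0)`. In `CubeFree` (see `KDD/Stmts.lean`) take
`0, C (1/r) P, C (1/r) Q` mapped to K: the sum is exactly 1. The discriminant commutes with the map
(resultant_deriv and resultant_map_map; the degrees do not change), `v (p m) <= v p < 1`. -/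
def CubStmt : Prop :=
  ∀ (K : Type) [Field K] [NumberField K] (v : NumberField.FinitePlace K) (a : Fin 4 → ℤ) (c : ℤ)
    (p : ℕ), p.Prime → v (p : K) < 1 → ¬ (p : ℤ) ∣ wr a →
    KDD.CubeFree v.val ((qp a c).map (Int.castRingHom K)) ∧
    ((p : ℤ) ∣ discr (qp a c) → v (discr ((qp a c).map (Int.castRingHom K))) < 1)

/-- **Row PLC** (places over given primes; easy-medium). PROOF. For p in P choose a maximal ideal I_p of
`𝓞 K` containing p (p is not a unit), `v_p` the corresponding place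
(`NumberField.FinitePlace.mk` / `IsDedekindDomain.HeightOneSpectrum`); `v_p p < 1`
(`NumberField.FinitePlace.norm_lt_one_iff_mem` or similar). The v_p are distinct for distinct p (an
ideal containing two primes contains 1), S = their image. `absNorm I_p >= p`: it is a power of p,
not 1; (`absNorm I_p ∈ I_p` ; p divides it, because otherwise 1 ∈ I_p). -/
def PlcStmt : Prop :=
  ∀ (K : Type) [Field K] [NumberField K] (P : Finset ℕ), (∀ p ∈ P, p.Prime) →
    ∃ S : Finset (NumberField.FinitePlace K), (∀ v ∈ S, ∃ p ∈ P, v (p : K) < 1) ∧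
      ∑ p ∈ P, Real.log p ≤ ∑ v ∈ S, Real.log (Ideal.absNorm v.maximalIdeal.asIdeal)

/-- **Row SPR** (easy). PROOF. A complex root z of `qp a c` has `|z| <= 2 H`: for `|z| = t H`, t > 2,
`|z|^5 <= sum_(i=1..5) H^i (t H)^(5-i) = H^5 (t^5 - 1)/(t - 1) < |z|^5`. So the distance of two roots is
`<= 4 H`, `SZT.spr <= 4 H` (`csSup_le`; the set is nonempty), `log spr <= log (4 H)` (if spr = 0 then
`log 0 = 0`), and `sum mult = [K : Q]` (`NumberField.InfinitePlace.sum_mult_eq`). -/
def SprStmt : Prop :=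
  ∀ (K : Type) [Field K] [NumberField K] (H : ℕ) (a : Fin 4 → ℤ) (c : ℤ), 1 ≤ H → Box H a →
    |c| ≤ (H : ℤ) ^ 5 →
    SZT.lH ((qp a c).map (Int.castRingHom K)) ≤ (Module.finrank ℚ K : ℝ) * Real.log (4 * H)

/-- **Row DEG** (few degenerate f_0; medium). PROOF. `q = derivative (qp a 0)
= 5x^4 + 4a_0 x^3 + 3a_1 x^2 + 2a_2 x + a_3`, Res(q,q') = 0 over ℚ: q is not separable, so not squarefree
(char 0): `h^2 | q` with h of degree 1 or 2. Degree 1: a rational double root r, `5 r = n` is an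
integer (rational root theorem, denominator divides 5), `|r| <= 2 H` (for `|x| = t H`, t > 2,
`5 t^4 > 4 t^3 + 3 t^2 + 2 t + 1`), `q(r) = q'(r) = 0`: `q'(r) = 20r^3 + 12a_0 r^2 + 6a_1 r + 2a_2 = 0`
determines a_2 from (a_0, a_1, n), then `q(r) = 0` determines a_3. Degree 2: `q = 5 h^2`,
h = x^2 + s x + t: `4a_0 = 10 s`, `3a_1 = 5 (s^2 + 2t)`, so (a_0, a_1) determine s, t and a_2 (`2a_2 = 10 s t`),
a_3 (`= 5t^2`). Number `<= (2H+1)(2H^2+1)(20H + 2)`. -/
def DegStmt : Prop :=
  ∃ C : ℝ, 0 < C ∧ ∀ H : ℕ, 1 ≤ H → {a : Fin 4 → ℤ | Box H a ∧ wr a = 0}.Finite ∧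
    ({a : Fin 4 → ℤ | Box H a ∧ wr a = 0}.ncard : ℝ) ≤ C * (H : ℝ) ^ (4 : ℕ)

/-- **Row CNT** (few c with few good primes; uses RNK, DSC, BND; medium). PROOF. ε = δ/2, η = δ/2,
A from BND, A' = 2 A^2 + 2 A + 2 + ε.. any number with `A <= A'` and `A H^A H^ε <= A' H^A'`. If
`discr = 0`: at most 4 c (DSC). Otherwise m = |discr| >= 1, r = product of the primes in `gp a c`,
`1 <= r < H^ε`; every prime divisor of m divides `|wr a|` or r, so it divides `n = |wr a| r`, and
`1 <= n <= A' H^A'`, `m <= A' H^A'`. For each r (fewer than H^ε + 1 values; r >= 1 integer) RNK gives at most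
`C H^η` values m, each m and sign gives at most 4 values c. So the number is
`<= 4 + 8 (H^ε + 1) C H^η <= (4 + 16 C) H^δ`. -/
def CntStmt : Prop :=
  ∀ δ : ℝ, 0 < δ → ∃ ε C : ℝ, 0 < ε ∧ 0 < C ∧ ∀ (H : ℕ) (a : Fin 4 → ℤ), 1 ≤ H → Box H a →
    wr a ≠ 0 →
    ({c : ℤ | |c| ≤ (H : ℤ) ^ 5 ∧ (discr (qp a c) = 0 ∨
      ((∏ p ∈ gp a c, p : ℕ) : ℝ) < (H : ℝ) ^ ε)}.ncard : ℝ) ≤ C * (H : ℝ) ^ δ

end Pool.Agent.TTC
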