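import Pool.Agent.TTC.Stmts
import Pool.Agent.Helper18_KDD.KDFP

set_option autoImplicit false

/-!
# Squad TTC, assembly
-/

namespace Pool.Agent.TTC

open Polynomial

/-- The conclusion of the theorem for the curve `y^2 = f(x)`: f is squarefree and for every number
field K of degree at most d every torsion point of J(K) has order at most B or a multiple
`M c`, `1 <= M <= B`, in a thin subgroup of degree at most B. -/
def Good (d B : ℕ) (f : ℤ[X]) : Prop :=
  Squarefree (f.map (Int.castRingHom ℚ)) ∧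
  ∀ (K : Type) [Field K] [NumberField K], Module.finrank ℚ K ≤ d →
    ∀ Y : UBT.OddCurve K, Y.f = f.map (Int.castRingHom K) → ∀ c : Y.Jac, IsOfFinOrder c →
      orderOf c ≤ B ∨ ∃ M : ℕ, 0 < M ∧ M ≤ B ∧ KDD.H18.ThinAt B Y (c ^ M)

/-- **Row FIB** (one pencil; uses CNT, SQF, CUB, PLC, SPR, KDD.H18.KddPStatement). PROOF. ε, C0 from
CNT; B from KddP for d and `ε/(2(d+1))`. For H <= 3 all c (at most `2*3^5+1`) go into the constant. Let
H >= 4, so `log (4H) <= 2 log H`. Let c, `|c| <= H^5`, be outside the set of CNT: `discr ≠ 0`, and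
`r = prod gp a c >= H^ε`. Then f = qp a c is squarefree (SQF). Let K, Y be given, n = [K:ℚ] <= d. S from PLC
with P = gp a c. The v in S are as in KddP by CUB (p ∈ gp a c divides the discriminant and not
`wr a`). `ε/(2(d+1)) lH f <= ε/(2(d+1)) n log(4H) <= ε log H <= log r = sum_(p in P) log p <= sum_S log Nv`.
Y.f is monic of degree 5 with coefficients in ℤ. -/
def FibStmt : Prop :=
  ∀ (d : ℕ) (δ : ℝ), 0 < δ → ∃ (B : ℕ) (C : ℝ), 0 < C ∧ ∀ (H : ℕ) (a : Fin 4 → ℤ), 1 ≤ H →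
    Box H a → wr a ≠ 0 →
    ({c : ℤ | |c| ≤ (H : ℤ) ^ 5 ∧ ¬ Good d B (qp a c)}.ncard : ℝ) ≤ C * (H : ℝ) ^ δ

/-- **Row TOT** (the whole box; uses FIB, DEG). PROOF. B from FIB. The set is in bijection with pairs
(a', c). The number of a' in the box is `<= prod (2 H^(i+1) + 1) <= 81 H^10`; those with `wr a' ≠ 0` have at
most `C H^δ` bad c; there are at most `C' H^4` with `wr a' = 0`, each with at most `3 H^5` c. -/
def TotStmt : Prop :=
  ∀ (d : ℕ) (δ : ℝ), 0 < δ → ∃ (B : ℕ) (C : ℝ), 0 < C ∧ ∀ H : ℕ, 1 ≤ H →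
    ({a : Fin 5 → ℤ | (∀ i, |a i| ≤ (H : ℤ) ^ (i.val + 1)) ∧
      ¬ Good d B (qp (fun i => a i.castSucc) (a 4))}.ncard : ℝ) ≤ C * (H : ℝ) ^ (10 + δ)

end Pool.Agent.TTC
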