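import Pool.Agent.TTC.Stmts

set_option autoImplicit false

/-!
# Squad TTC, part 2: ALL one-parameter polynomial families

THEOREM (row FAM, `TTC/StmtsD.lean`). For all d, k, δ > 0 there are B, C such that for every H >= 1 and
every family `f_t = x^5 + F_0(t) x^4 + .. + F_4(t)`, `F_i ∈ ℤ[t]` of degree <= k with coefficients of absolute
value <= H, which has a squarefree fibre and a complex fibre with a double root but no triple root:
all but C H^δ integers |t| <= H give curves with bounded torsion (the conclusion `Good` of StmtsB).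
Rules as in `TTC/Stmts.lean`; rows import `Pool.Agent.TTC.StmtsC` (FAM: `Pool.Agent.TTC.StmtsD`).
-/

namespace Pool.Agent.TTC

open Polynomial

/-- `x^5 + a_0 x^4 + a_1 x^3 + a_2 x^2 + a_3 x + a_4` -/
noncomputable def quin {R : Type} [CommRing R] (a : Fin 5 → R) : R[X] :=
  X ^ 5 + C (a 0) * X ^ 4 + C (a 1) * X ^ 3 + C (a 2) * X ^ 2 + C (a 3) * X + C (a 4)

/-- `Res(f, f')` (formal degrees 5, 4) -/
noncomputable def dr {R : Type} [CommRing R] (a : Fin 5 → R) : R :=
  resultant (quin a) (derivative (quin a)) 5 4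

/-- `Res(f', f'' + m f)` (formal degrees 4, 5) -/
noncomputable def er {R : Type} [CommRing R] (m : ℕ) (a : Fin 5 → R) : R :=
  resultant (derivative (quin a)) (derivative (derivative (quin a)) + C (m : R) * quin a) 4 5

/-- degree at most k, coefficients at most M in absolute value -/
def Siz (k : ℕ) (M : ℤ) (P : ℤ[X]) : Prop := P.natDegree ≤ k ∧ ∀ n, |P.coeff n| ≤ M

/-- **Row NAT** (easy). PROOF. (1) `resultant_map_map`, `derivative_map`, `Polynomial.map_add` ... .
(2) `resultant_deriv`: f = quin a monic of degree 5, sign `(-1)^10`. (3) over ℂ: f has degree 5, f' degree 4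
(leading coefficient 5), so `dr a = resultant f f'` with the true degrees, zero iff f, f' are not coprime
(`resultant_ne_zero`, `resultant_eq_zero_iff`), i.e. f not separable, i.e. not squarefree
(`PerfectField.separable_iff_squarefree`). -/
def NatStmt : Prop :=
  (∀ (R S : Type) [CommRing R] [CommRing S] (φ : R →+* S) (a : Fin 5 → R),
    quin (fun i => φ (a i)) = (quin a).map φ ∧ dr (fun i => φ (a i)) = φ (dr a) ∧
    ∀ m, er m (fun i => φ (a i)) = φ (er m a)) ∧
  (∀ a : Fin 5 → ℤ, discr (quin a) = dr a) ∧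
  ∀ a : Fin 5 → ℂ, dr a = 0 ↔ ¬ Squarefree (quin a)

/-- **Row EXL** (easy-medium). PROOF. f' has degree 4 and leading coefficient 5;
`er m a = 5^5 prod over the roots θ of f' (with multiplicity) of (f'' + m f)(θ)` (`resultant_eq_prod_eval`,
degree of `f'' + m f` at most 5). If it is 0 for m = 0, 1, 2, 3, 4, then by the pigeonhole principle (f' has
at most 4 roots) some root θ of f' satisfies `f''(θ) + m f(θ) = 0` for two different m, so
`f(θ) = f'(θ) = f''(θ) = 0`, and `(X - θ)^3 | f` (rootMultiplicity, char 0). -/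
def ExlStmt : Prop :=
  ∀ a : Fin 5 → ℂ, (∀ z : ℂ, ¬ (X - C z) ^ 3 ∣ quin a) → ∃ m : ℕ, m ≤ 4 ∧ er m a ≠ 0

/-- **Row CU2** (copy of CUB, `Helper62_TTC/CUB.lean`). PROOF. `f' P + (f'' + m f) Q = C r`, r = er m a
(`exists_mul_add_mul_eq_C_resultant`), v 2 = 1, v r = 1; in `CubeFree` take `C (m/r) Q, C (1/r) P,
C (1/r) Q`. Second part: `discr` of the image is the image of `dr a`. -/
def Cu2Stmt : Prop :=
  ∀ (K : Type) [Field K] [NumberField K] (v : NumberField.FinitePlace K) (a : Fin 5 → ℤ) (m : ℕ)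
    (p : ℕ), p.Prime → v (p : K) < 1 → ¬ (p : ℤ) ∣ 2 * er m a →
    KDD.CubeFree v.val ((quin a).map (Int.castRingHom K)) ∧
    ((p : ℤ) ∣ dr a → v (discr ((quin a).map (Int.castRingHom K))) < 1)

/-- **Row BNF** (bounds for the family; easy-medium). PROOF. `dr F`, `er m F` are determinants of 9 x 9
matrices over ℤ[t] whose entries are coefficients of f, f', f'' + m f (0, or an integer `<= 25` times
one F_i or 1, sums of two of them): degree `<= k` and sum of the absolute values of the coefficients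
`<= 50 (k+1) H`. Products of 9 of them: degree `<= 9k`, sum of absolute values of coefficients
`<= (50 (k+1) H)^9` (this norm is submultiplicative); there are `9!` permutations. -/
def BnfStmt : Prop :=
  ∀ k : ℕ, ∃ A : ℕ, ∀ (H : ℕ) (F : Fin 5 → ℤ[X]), 1 ≤ H → (∀ i, Siz k H (F i)) →
    Siz A (A * (H : ℤ) ^ A) (dr F) ∧ ∀ m : ℕ, m ≤ 4 → Siz A (A * (H : ℤ) ^ A) (er m F)

/-- **Row FAC** (a factor of D coprime to E; medium). PROOF. ℤ[X] is a UFD: D is a unit times a
product of irreducible polynomials, one of them, φ, vanishes at t₀; it is not constant (a nonzero integer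
does not vanish), so primitive and irreducible over ℚ (Gauss,
`IsPrimitive.Int.irreducible_iff_irreducible_map_cast`); it does not divide E over ℚ (E(t₀) ≠ 0), so φ and
E are coprime over ℚ and `ρ = |Res(φ, E)|` (true degrees, `resultant_ne_zero`, `resultant_map_map`) is not 0;
`φ P + E Q = C (Res)` (`exists_mul_add_mul_eq_C_resultant`) gives the last claim. Coefficients of φ:
Mahler measure (`Polynomial.norm_coeff_le_choose_mul_mahlerMeasure_of_one_le_mahlerMeasure` or
`mahlerMeasure_mul`, the cofactor D/φ has integral leading coefficient, measure `>= 1`;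
`mahlerMeasure_le_sum_norm_coeff`): `|coeff| <= 2^A (A+1) A H^A`. ρ: determinant of a matrix of size
`<= 2A` with such entries (`Matrix.det_le`; if E is a constant the size is `deg φ`). -/
def FacStmt : Prop :=
  ∀ A : ℕ, ∃ A' : ℕ, ∀ (H : ℕ) (D E : ℤ[X]) (t₀ : ℂ), 1 ≤ H → Siz A (A * (H : ℤ) ^ A) D →
    Siz A (A * (H : ℤ) ^ A) E → D ≠ 0 → aeval t₀ D = 0 → aeval t₀ E ≠ 0 →
    ∃ (φ : ℤ[X]) (ρ : ℕ), φ ∣ D ∧ 1 ≤ φ.natDegree ∧ Siz A' (A' * (H : ℤ) ^ A') φ ∧ 1 ≤ ρ ∧
      (ρ : ℤ) ≤ A' * (H : ℤ) ^ A' ∧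
      ∀ (t : ℤ) (p : ℕ), p.Prime → (p : ℤ) ∣ φ.eval t → (p : ℤ) ∣ E.eval t → p ∣ ρ

/-- **Row CN2** (few t with few good primes; uses RNK; as CNT, `Helper30_TTC/CNT.lean`). PROOF.
`φ(t) = 0`: at most A values. Otherwise m = |φ(t)| satisfies `1 <= m <= (A+1) A H^(2A)` (|t| <= H), r = the
product, `1 <= r < H^ε`, all prime divisors of m divide `n₀ r`. For each r RNK (with a constant
`>= (A+1) A + 2A + ..`) gives at most `C H^(δ/2)` values m, each m has at most 2A values t (φ is not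
constant). ε = δ/2. -/
def Cn2Stmt : Prop :=
  ∀ (A : ℕ) (δ : ℝ), 0 < δ → ∃ ε C : ℝ, 0 < ε ∧ 0 < C ∧ ∀ (H : ℕ) (φ : ℤ[X]) (n₀ : ℕ), 1 ≤ H →
    1 ≤ φ.natDegree → Siz A (A * (H : ℤ) ^ A) φ → 1 ≤ n₀ → (n₀ : ℤ) ≤ A * (H : ℤ) ^ A →
    ({t : ℤ | |t| ≤ (H : ℤ) ∧ (φ.eval t = 0 ∨
      ((∏ p ∈ (φ.eval t).natAbs.primeFactors.filter (fun p => ¬ p ∣ n₀), p : ℕ) : ℝ)
        < (H : ℝ) ^ ε)}.ncard : ℝ) ≤ C * (H : ℝ) ^ δ

end Pool.Agent.TTC
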