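import Pool.Agent.TTC.StmtsB
import Pool.Agent.TTC.StmtsC

set_option autoImplicit false

/-!
# Squad TTC, part 2, assembly
-/

namespace Pool.Agent.TTC

open Polynomial

/-- **Row FAM** (all one-parameter families; uses NAT, EXL, CU2, BNF, FAC, CN2, SQF, PLC, SPR,
KDD.H18.KddPStatement; model `Helper23_TTC/FIB.lean`). PROOF. A from BNF for k; A' from FAC for A (take
it >= A; constants `A'' = 2 A' + 2`), ε, C0 from CN2 for A'' and δ; B from KddP for d and
`ε' = ε/((k+2)(d+1))`. Let H, F be given. t₀ the fibre with a double root and no triple root, m from EXL,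
E = er m F, D = dr F. By NAT (φ = aeval t₀ as a ring homomorphism ℤ[X] → ℂ): `E(t₀) ≠ 0`, `D(t₀) = 0`, and
`D(t₁) ≠ 0` for the squarefree fibre, so D ≠ 0. φ, ρ from FAC; CN2 with `n₀ = 2 ρ`. For H < 4(k+1) all t go
into the constant; let `H >= 4 (k+1)`. Let t be outside the set of CN2 and `D(t) ≠ 0` (at most A further
t). a_i = F_i(t), `|a_i| <= M = (k+1) H^(k+1)`, `M^(i+1) >= M`, `quin a = qp (a_0..a_3) a_4`. Squarefree by SQF
(discr = dr a = D(t), NAT). The primes p in `P = {p | φ(t), p not dividing 2 ρ}`: p does not divide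
`2 E(t)` (FAC), p | D(t), so CU2 for every place over p. S from PLC. SPR with M in place of H:
`lH <= [K:ℚ] log (4M) <= d (k+2) log H` (log (4(k+1)) <= log H). So `ε' lH <= ε log H <= sum_P log p
<= sum_S log Nv`. KddP. -/
def FamStmt : Prop :=
  ∀ (d k : ℕ) (δ : ℝ), 0 < δ → ∃ (B : ℕ) (C : ℝ), 0 < C ∧ ∀ (H : ℕ) (F : Fin 5 → ℤ[X]), 1 ≤ H →
    (∀ i, Siz k H (F i)) →
    (∃ t : ℂ, Squarefree (quin fun i => aeval t (F i))) →
    (∃ t : ℂ, ¬ Squarefree (quin fun i => aeval t (F i)) ∧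
      ∀ z : ℂ, ¬ (X - Polynomial.C z) ^ 3 ∣ quin fun i => aeval t (F i)) →
    ({t : ℤ | |t| ≤ (H : ℤ) ∧ ¬ Good d B (quin fun i => (F i).eval t)}.ncard : ℝ)
      ≤ C * (H : ℝ) ^ δ

end Pool.Agent.TTC
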