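import Pool.Agent.TTC.StmtsD

set_option autoImplicit false

/-!
# Squad TTC, part 3: ALL polynomial families with any number of parameters

THEOREM (row MUL). For all d, k, m, δ > 0 there are B, C such that for every H >= 1, every family
`f_t = x^5 + F_0(t) x^4 + .. + F_4(t)`, `F_i ∈ ℤ[t_0, .., t_m]` of total degree <= k with coefficients
of absolute value <= H, which has a squarefree fibre and a complex fibre with a double root but no
triple root, and all `1 <= T_i <= H`, `T_{i₀}` minimal: all but `C H^δ prod_{i ≠ i₀} T_i` of the integer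
points `|t_i| <= T_i` give curves with bounded torsion (`Good` of StmtsB). It is deduced from the theorem
for one parameter (`FamStmt`, StmtsD, PROVED: `Pool.Agent.TTC.H40.fam` in `Helper40_TTC/Final2.lean`) by
cutting the box into lines.
Rules as in `TTC/Stmts.lean`; rows import `Pool.Agent.TTC.StmtsE`.
-/

namespace Pool.Agent.TTC

open Polynomial

/-- the point with coordinate `s` at `i₀` and coordinates `b j + a j * s` at the other places -/
def pt {R : Type} [CommRing R] {m : ℕ} (i₀ : Fin (m + 1)) (a : Fin m → ℕ) (s : R) (b : Fin m → R) :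
    Fin (m + 1) → R :=
  i₀.insertNth (α := fun _ => R) s fun j => b j + (a j : R) * s

/-- the substitution `t = pt i₀ a s b` in a polynomial: the result is a polynomial in `s = X` over the
polynomial ring in the `b j` -/
noncomputable def sub {R : Type} [CommRing R] {m : ℕ} (i₀ : Fin (m + 1)) (a : Fin m → ℕ) :
    MvPolynomial (Fin (m + 1)) R →ₐ[R] (MvPolynomial (Fin m) R)[X] :=
  MvPolynomial.aeval (pt i₀ a (X : (MvPolynomial (Fin m) R)[X]) fun j => C (MvPolynomial.X j))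

/-- the value at `b`, `s` of a polynomial in `s` over the polynomial ring in the `b j` -/
noncomputable def ev {m : ℕ} (b : Fin m → ℂ) (s : ℂ) (P : (MvPolynomial (Fin m) ℂ)[X]) : ℂ :=
  (P.map (MvPolynomial.eval b)).eval s

/-- total degree (in s and the b j together) at most N -/
def TD {R : Type} [CommRing R] {m : ℕ} (N : ℕ) (P : (MvPolynomial (Fin m) R)[X]) : Prop :=
  ∀ j, P.coeff j ≠ 0 → (P.coeff j).totalDegree + j ≤ N

/-- `F : Fin 5 → ℤ[t]`: total degree at most k, coefficients at most H in absolute value -/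
def MSiz {m : ℕ} (k H : ℕ) (P : MvPolynomial (Fin (m + 1)) ℤ) : Prop :=
  P.totalDegree ≤ k ∧ ∀ n, |P.coeff n| ≤ (H : ℤ)

/-- the family has a squarefree fibre and a fibre with a double root and no triple root -/
def Nodal {m : ℕ} (F : Fin 5 → MvPolynomial (Fin (m + 1)) ℤ) : Prop :=
  (∃ t : Fin (m + 1) → ℂ, Squarefree (quin fun i => MvPolynomial.aeval t (F i))) ∧
  ∃ t : Fin (m + 1) → ℂ, ¬ Squarefree (quin fun i => MvPolynomial.aeval t (F i)) ∧
    ∀ z : ℂ, ¬ (X - C z) ^ 3 ∣ quin fun i => MvPolynomial.aeval t (F i)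

/-- **Row SB1** (evaluation; easy). PROOF. (1)-(3): both sides are ring homomorphisms in P (algebra
homomorphisms over ℤ resp. ℂ); they agree on the variables (`MvPolynomial.algHom_ext` or
`MvPolynomial.induction_on`; for the variable i use `Fin.succAboveCases` / `Fin.eq_self_or_eq_succAbove`
and `Fin.insertNth_apply_same`, `Fin.insertNth_apply_succAbove`). (4) likewise. (5): `ext i`, the two cases
of i. -/
def Sb1Stmt : Prop :=
  (∀ (m : ℕ) (i₀ : Fin (m + 1)) (a : Fin m → ℕ) (P : MvPolynomial (Fin (m + 1)) ℤ) (b : Fin m → ℤ)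
    (s : ℤ), ((sub i₀ a P).map (MvPolynomial.eval b)).eval s = MvPolynomial.eval (pt i₀ a s b) P) ∧
  (∀ (m : ℕ) (i₀ : Fin (m + 1)) (a : Fin m → ℕ) (P : MvPolynomial (Fin (m + 1)) ℤ) (b : Fin m → ℤ)
    (s : ℂ), aeval s ((sub i₀ a P).map (MvPolynomial.eval b))
      = MvPolynomial.aeval (pt i₀ a s fun j => ((b j : ℤ) : ℂ)) P) ∧
  (∀ (m : ℕ) (i₀ : Fin (m + 1)) (a : Fin m → ℕ) (P : MvPolynomial (Fin (m + 1)) ℂ) (b : Fin m → ℂ)
    (s : ℂ), ev b s (sub i₀ a P) = MvPolynomial.eval (pt i₀ a s b) P) ∧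
  (∀ (m : ℕ) (P : MvPolynomial (Fin (m + 1)) ℤ) (t : Fin (m + 1) → ℂ),
    MvPolynomial.eval t (P.map (Int.castRingHom ℂ)) = MvPolynomial.aeval t P) ∧
  ∀ (m : ℕ) (i₀ : Fin (m + 1)) (a : Fin m → ℕ) (R : Type) [CommRing R] (t : Fin (m + 1) → R),
    pt i₀ a (t i₀) (fun j => t (i₀.succAbove j) - (a j : R) * t i₀) = t

/-- **Row SB2** (total degree of the substitution; easy-medium). PROOF. TD 0 holds for constants
`C (MvPolynomial.C r)`, TD 1 for `C (X j) + a_j X` and for X; TD N P and TD N Q give TD N (P + Q)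
(`totalDegree_add`), TD N P and TD M Q give TD (N + M) (P Q) (`Polynomial.coeff_mul`,
`MvPolynomial.totalDegree_mul`, `totalDegree_finset_sum`); TD is monotone in N. Write P as the sum of its
monomials (`MvPolynomial.as_sum` or `support_sum_monomial_coeff`, `le_totalDegree`). -/
def Sb2Stmt : Prop :=
  ∀ (m N : ℕ) (i₀ : Fin (m + 1)) (a : Fin m → ℕ) (P : MvPolynomial (Fin (m + 1)) ℂ),
    P.totalDegree ≤ N → TD N (sub i₀ a P)

/-- **Row DIR** (a good direction; medium). PROOF. Let `P_N = homogeneousComponent N P ≠ 0`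
(`totalDegree = N`, P ≠ 0). `q = aeval (i₀.insertNth 1 (fun j => X j)) P_N ∈ ℂ[X_j]` is not zero:
otherwise for all s ≠ 0 and b: `P_N(s at i₀, b elsewhere) = s^N q(b/s) = 0`
(`IsHomogeneous.eval₂`/`IsHomogeneous` scaling), so `X_{i₀} P_N` vanishes everywhere and is 0
(`MvPolynomial.funext`). `totalDegree q <= N`. By Schwartz-Zippel (`schwartz_zippel_totalDegree` with
S = {0, .., N} in ℂ, N/(N+1) < 1) some `a ∈ {0..N}^m` has `q(a) ≠ 0`. Coefficient of `X^N` in
`sub i₀ a P`: a monomial `c t^n` gives `c X^(n i₀) prod (C X_j + a_j X)^(n_j)`, whose coefficient at `X^N` is 0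
for |n| < N and `c prod a_j^(n_j)` for |n| = N; sum `= C (q(a))`. -/
def DirStmt : Prop :=
  ∀ (m N : ℕ) (P : MvPolynomial (Fin (m + 1)) ℂ) (i₀ : Fin (m + 1)), P ≠ 0 → P.totalDegree = N →
    ∃ a : Fin m → ℕ, (∀ j, a j ≤ N) ∧ ∃ l : ℂ, l ≠ 0 ∧ (sub i₀ a P).coeff N = MvPolynomial.C l

/-- **Row NDG** (the algebraic heart; medium). PROOF. `D₁ = C (C l⁻¹) * D` is monic of degree n and
TD n. LEMMA: if TD M P then there are Q, r with `P = D₁ Q + r`, `degree r < n`, TD M r (strong induction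
on the degree of P: subtract `C (leading coefficient) X^(deg P - n) D₁`, again TD M; or `P /ₘ D₁`, `P %ₘ D₁` and
`div_modByMonic_unique`). Apply it to `P = E^n` (TD (n N), n >= 1 since `ev b₀ s₀ D = 0` and l ≠ 0).
`r ≠ 0`: otherwise `ev b₀ s₀ E ^ n = ev b₀ s₀ D₁ * .. = 0`. R = a nonzero coefficient `r.coeff j`;
`totalDegree R + j <= n N`. Let `eval b R ≠ 0` and let a bar denote `map (eval b)`: `rbar ≠ 0`, degree < n,
`Ebar^n = D₁bar Qbar + rbar`. If every root of Dbar were a root of Ebar: `D₁bar` is a product of n factors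
`X - s_i` (ℂ algebraically closed, `IsAlgClosed.splits`, `Splits` API, roots), each divides Ebar, so
`D₁bar ∣ Ebar^n`, `D₁bar ∣ rbar`, contradiction with the degrees (`Polynomial.eq_zero_of_dvd_of_degree_lt`).
-/
def NdgStmt : Prop :=
  ∀ (m n N : ℕ) (D E : (MvPolynomial (Fin m) ℂ)[X]) (l : ℂ) (b₀ : Fin m → ℂ) (s₀ : ℂ), l ≠ 0 →
    D.coeff n = MvPolynomial.C l → TD n D → TD N E → ev b₀ s₀ D = 0 → ev b₀ s₀ E ≠ 0 →
    ∃ R : MvPolynomial (Fin m) ℂ, R ≠ 0 ∧ R.totalDegree ≤ n * N ∧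
      ∀ b : Fin m → ℂ, MvPolynomial.eval b R ≠ 0 → ∃ s : ℂ, ev b s D = 0 ∧ ev b s E ≠ 0

/-- **Row MDG** (degrees of `dr F`, `er j F`; easy). PROOF. Both are determinants of 9 x 9 matrices
(Sylvester matrices of formal degrees (5, 4)) with entries 0 or coefficients of f, f', f'' + j f, which have
total degree <= k as polynomials in t (`quin F` has coefficients 1, F_i, 0). `Matrix.det_apply`, `totalDegree_finset_sum`
(`totalDegree_finsetSum_le`), `totalDegree_finset_prod`, `totalDegree_smul_le`. Model: row BNF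
(`Helper27_TTC/BNF.lean`). -/
def MdgStmt : Prop :=
  ∀ (m k : ℕ) (F : Fin 5 → MvPolynomial (Fin (m + 1)) ℤ), (∀ i, (F i).totalDegree ≤ k) →
    (dr F).totalDegree ≤ 9 * k ∧ ∀ j : ℕ, (er j F).totalDegree ≤ 9 * k

/-- **Row LSZ** (size of the family on a line; easy-medium). PROOF. P is the sum of at most
`(k+1)^(m+1)` terms `c t^n`, |n| <= k, |c| <= H. Such a term becomes
`c X^(n i₀) prod (b_j + a_j X)^(n_j)` in ℤ[X]: degree <= |n| <= k, sum of the absolute values of the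
coefficients `<= H prod (|b_j| + a_j)^(n_j) <= H (2 L H)^k` (submultiplicative; L, H >= 1). So
`A = (k+1)^(m+1) (2L)^k + k + 1` does it. -/
def LszStmt : Prop :=
  ∀ k m L : ℕ, 1 ≤ L → ∃ A : ℕ, 1 ≤ A ∧ ∀ (H : ℕ) (i₀ : Fin (m + 1)) (a : Fin m → ℕ) (b : Fin m → ℤ)
    (P : MvPolynomial (Fin (m + 1)) ℤ), 1 ≤ H → (∀ j, a j ≤ L) → (∀ j, |b j| ≤ (L : ℤ) * H) →
    MSiz k H P → Siz k (A * (H : ℤ) ^ A) ((sub i₀ a P).map (MvPolynomial.eval b))

/-- **Row SZB** (Schwartz-Zippel in a box; easy-medium). PROOF. `schwartz_zippel_sup_sum` with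
`S j` = image in ℂ of `Finset.Icc (-(S j)) (S j)` (card 2 S j + 1, the cast is injective); for s in the support of
R: `sum s_j / (2 S_j + 1) <= (sum s_j)/τ <= totalDegree R / τ`. The set of integer points is mapped
injectively to the set of the lemma. -/
def SzbStmt : Prop :=
  ∀ (m : ℕ) (R : MvPolynomial (Fin m) ℂ) (S : Fin m → ℕ) (τ : ℕ), R ≠ 0 → 1 ≤ τ →
    (∀ j, τ ≤ 2 * S j + 1) →
    τ * {b : Fin m → ℤ | (∀ j, |b j| ≤ (S j : ℤ)) ∧
      MvPolynomial.eval (fun j => ((b j : ℤ) : ℂ)) R = 0}.ncard ≤ R.totalDegree * ∏ j, (2 * S j + 1)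

/-- **Row EXC** (converse of EXL; easy). PROOF. A triple root z of f is a root of f, f', f''
(`(X - C z)^2 ∣ f'`, ..), so f' and `f'' + m f` have the common root z and `er m a = 0`
(`er m a = 5^5 prod (f'' + m f)(θ)` over the roots θ of f', as in `Helper88_TTC/EXL.lean`; or: they are
not coprime, and by `exists_mul_add_mul_eq_C_resultant` er m a is the value at z of a combination). -/
def ExcStmt : Prop :=
  ∀ (a : Fin 5 → ℂ) (m : ℕ), er m a ≠ 0 → ∀ z : ℂ, ¬ (X - C z) ^ 3 ∣ quin a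

/-- **Row LIN** (lines; medium; uses NatStmt, ExlStmt, SB1, SB2, DIR, NDG, MDG, LSZ, EXC, FamStmt).
PROOF. `L = 9 k + 1`, `K = (9k)^2`; A from LSZ for k, m, 2L; B, C1 from FamStmt for d, k, `δ/A`;
`C = C1 A^(δ/A)`. Let H, F, i₀ be given. `P = (dr F).map (ℤ → ℂ)`: by NAT (with the ring homomorphism
`aeval t`) `P(t) = dr (aeval t F)`; P ≠ 0 because of the squarefree fibre; `N = totalDegree P <= 9 k` (MDG,
`totalDegree_map_le`). a from DIR. EXL gives j <= 4 with `er j (aeval t₀ F) ≠ 0` for the double-not-triple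
fibre t₀; `t₀ = pt i₀ a s₀ b₀` (SB1 (5)). `D = sub i₀ a P`, `E = sub i₀ a ((er j F).map ..)`; SB2, MDG: TD N D,
TD (9k) E. NDG gives R, `totalDegree R <= N 9k <= K`. Let b be an integer point with `R(b) ≠ 0`,
|b_j| <= 2 L H. `G_i = (sub i₀ a (F i)).map (eval b) ∈ ℤ[X]`: `Siz k (A H^A)` (LSZ), i.e. FamStmt can be
applied with `H₁ = A H^A >= H`. Fibres: for complex s, `aeval s G_i = aeval (pt i₀ a s b) F_i` (SB1 (2)), so
`dr (fibre at s) = ev b s D`, `er j (fibre at s) = ev b s E` (NAT, SB1 (3), (4)). The polynomial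
`D.map (eval b)` has coefficient l ≠ 0 at N, so it is not zero at some s (`exists_eval_ne_zero..`, infinite
field): squarefree fibre. The s of NDG: not squarefree, no triple root (EXC). FamStmt:
the exceptions in `|s| <= H₁` are at most `C1 (A H^A)^(δ/A) = C H^δ`, and for integers s the fibre is
`quin (G_i.eval s) = quin (eval (pt i₀ a s b) F_i)` (SB1 (1)). -/
def LinStmt : Prop :=
  ∀ (d k m : ℕ) (δ : ℝ), 0 < δ → ∃ (B L K : ℕ) (C : ℝ), 0 < C ∧ 1 ≤ L ∧
    ∀ (H : ℕ) (F : Fin 5 → MvPolynomial (Fin (m + 1)) ℤ) (i₀ : Fin (m + 1)), 1 ≤ H →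
    (∀ i, MSiz k H (F i)) → Nodal F →
    ∃ (a : Fin m → ℕ) (R : MvPolynomial (Fin m) ℂ), (∀ j, a j ≤ L) ∧ R ≠ 0 ∧ R.totalDegree ≤ K ∧
      ∀ b : Fin m → ℤ, (∀ j, |b j| ≤ 2 * (L : ℤ) * H) →
        MvPolynomial.eval (fun j => ((b j : ℤ) : ℂ)) R ≠ 0 →
        ({s : ℤ | |s| ≤ (H : ℤ) ∧
          ¬ Good d B (quin fun i => MvPolynomial.eval (pt i₀ a s b) (F i))}.ncard : ℝ)
          ≤ C * (H : ℝ) ^ δ

/-- **Row MUL** (union bound; medium; uses SB1, SZB, LIN). PROOF. B, L, K, C from LIN. Send an exceptional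
t to (b, s), `s = t i₀`, `b_j = t_(succAbove j) - a_j s`; injective, `t = pt i₀ a s b` (SB1 (5));
`|b_j| <= T_j + L T_{i₀} <= 2 L T_j` (T_{i₀} <= T_j, L >= 1; T_j short for `T (i₀.succAbove j)`) `<= 2 L H`.
Good b (R(b) ≠ 0): at most `prod (4 L T_j + 1) <= (5L)^m prod T_j` of them, each with at most `C H^δ`
exceptions s. Bad b: SZB with `S_j = 2 L T_j`, `τ = T_{i₀}`: `T_{i₀} * number <= K prod (4 L T_j + 1)`, each with at
most `2 T_{i₀} + 1 <= 3 T_{i₀}` values of s. Total `<= (5L)^m (C + 3K) H^δ prod_j T_j`; multiply by `T_{i₀}`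
and use `Fin.prod_univ_succAbove`. -/
def MulStmt : Prop :=
  ∀ (d k m : ℕ) (δ : ℝ), 0 < δ → ∃ (B : ℕ) (C : ℝ), 0 < C ∧
    ∀ (H : ℕ) (F : Fin 5 → MvPolynomial (Fin (m + 1)) ℤ) (T : Fin (m + 1) → ℕ) (i₀ : Fin (m + 1)),
    (∀ i, 1 ≤ T i ∧ T i ≤ H ∧ T i₀ ≤ T i) → (∀ i, MSiz k H (F i)) → Nodal F →
    ({t : Fin (m + 1) → ℤ | (∀ i, |t i| ≤ (T i : ℤ)) ∧
        ¬ Good d B (quin fun i => MvPolynomial.eval t (F i))}.ncard : ℝ) * (T i₀ : ℝ)
      ≤ C * (H : ℝ) ^ δ * ∏ i, (T i : ℝ)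

end Pool.Agent.TTC
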