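import Pool.Agent.TTC.StmtsE

set_option autoImplicit false

/-!
# Squad TTC, part 4: ALL curves of genus 2, `y^2 = F(x)` with sextics F

THEOREM (row MU6). As `MulStmt` of StmtsE for families of SEXTICS `F_t = F_0(t) x^6 + .. + F_6(t)`,
`F_i ∈ ℤ[t_0, .., t_m]`, with a squarefree fibre of degree 6 and a complex fibre of degree 6 with exactly one
double root (and four simple roots). Conclusion `Good6`: F is squarefree of degree 6, and for every
number field K of degree <= d, every root α ∈ K of F of degree >= 3 over ℚ: torsion of J(K) is bounded as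
before; J = class group of the odd model `y^2 = om a α`, which is K-isomorphic to `y^2 = F(x)` by
`x = α + a_0^4 F'(α)/X` (because `F(α + a_0^4 F'(α)/X) X^6 = (a_0^2 F'(α))^2 om(X)`).
WHY degree >= 3: modulo p the only multiple root θ of F has multiplicity 2, so the minimal polynomial of α has
modulo p a root which is a SIMPLE root of F, and there is a place v over p at which α reduces to it.
At such v the odd model has one node, its roots are `a_0^4 F'(α)/(α_i - α)`.
Rules as in `TTC/Stmts.lean`; rows import `Pool.Agent.TTC.StmtsF`.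
-/

namespace Pool.Agent.TTC

open Polynomial NumberField

/-- `a_0 x^6 + .. + a_6` -/
noncomputable def sext {R : Type} [CommRing R] (a : Fin 7 → R) : R[X] :=
  C (a 0) * X ^ 6 + C (a 1) * X ^ 5 + C (a 2) * X ^ 4 + C (a 3) * X ^ 3 + C (a 4) * X ^ 2 +
    C (a 5) * X + C (a 6)

/-- `Res_x(F'(x), y - F(x))` (formal degrees 5, 6), a polynomial in y -/
noncomputable def crit {R : Type} [CommRing R] (a : Fin 7 → R) : R[X] :=
  resultant ((derivative (sext a)).map (C : R →+* R[X]))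
    (C (X : R[X]) - (sext a).map (C : R →+* R[X])) 5 6

/-- its constant coefficient (the discriminant up to a factor) -/
noncomputable def d6 {R : Type} [CommRing R] (a : Fin 7 → R) : R := (crit a).coeff 0

/-- `6 a_0` times its linear coefficient -/
noncomputable def e6 {R : Type} [CommRing R] (a : Fin 7 → R) : R := 6 * a 0 * (crit a).coeff 1

/-- exactly one multiple root, which is a double root -/
def OneNode {k : Type} [Field k] (F : k[X]) : Prop :=
  ∃ θ : k, F.eval θ = 0 ∧ (derivative F).eval θ = 0 ∧ (derivative (derivative F)).eval θ ≠ 0 ∧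
    ∀ θ' : k, F.eval θ' = 0 → (derivative F).eval θ' = 0 → θ' = θ

/-- the odd model of `y^2 = F(x)`, F = sext a, with the root α at infinity; T_j are the coefficients of
`F(x + α)` (T_1 = F'(α)) -/
noncomputable def om {R : Type} [CommRing R] (a : Fin 7 → R) (α : R) : R[X] :=
  X ^ 5 + C ((taylor α (sext a)).coeff 2 * a 0 ^ 4) * X ^ 4 +
    C ((taylor α (sext a)).coeff 3 * (taylor α (sext a)).coeff 1 * a 0 ^ 8) * X ^ 3 +
    C ((taylor α (sext a)).coeff 4 * (taylor α (sext a)).coeff 1 ^ 2 * a 0 ^ 12) * X ^ 2 +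
    C ((taylor α (sext a)).coeff 5 * (taylor α (sext a)).coeff 1 ^ 3 * a 0 ^ 16) * X +
    C ((taylor α (sext a)).coeff 6 * (taylor α (sext a)).coeff 1 ^ 4 * a 0 ^ 20)

/-- The conclusion of the theorem for the curve `y^2 = F(x)`, F = sext a. -/
def Good6 (d B : ℕ) (a : Fin 7 → ℤ) : Prop :=
  ((sext a).map (Int.castRingHom ℚ)).natDegree = 6 ∧
  Squarefree ((sext a).map (Int.castRingHom ℚ)) ∧
  ∀ (K : Type) [Field K] [NumberField K], Module.finrank ℚ K ≤ d →
    ∀ α : K, ((sext a).map (Int.castRingHom K)).eval α = 0 → 3 ≤ (minpoly ℚ α).natDegree →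
    ∀ Y : UBT.OddCurve K, Y.f = om (fun i => ((a i : ℤ) : K)) α → ∀ c : Y.Jac, IsOfFinOrder c →
      orderOf c ≤ B ∨ ∃ M : ℕ, 0 < M ∧ M ≤ B ∧ KDD.H18.ThinAt B Y (c ^ M)

/-- **Row NA6** (naturality; easy-medium). PROOF. For φ : R → S put `φ' = mapRingHom φ : R[X] →+* S[X]`.
`sext`: `Polynomial.map_add`, .. . `crit (φ ∘ a) = (crit a).map φ`: `resultant_map_map` for φ', and
`(F.map φ).map C = (F.map C).map φ'`, `φ' X = X`, `derivative_map`. Then `coeff_map`. `om`:
`(taylor (φ α) (F.map φ)) = (taylor α F).map φ` (`taylor` is composition with `X + C α`; or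
`taylor_coeff` and `hasseDeriv` commute with maps), `coeff_map`. -/
def Na6Stmt : Prop :=
  ∀ (R S : Type) [CommRing R] [CommRing S] (φ : R →+* S) (a : Fin 7 → R),
    sext (fun i => φ (a i)) = (sext a).map φ ∧ d6 (fun i => φ (a i)) = φ (d6 a) ∧
    e6 (fun i => φ (a i)) = φ (e6 a) ∧
    ∀ α : R, om (fun i => φ (a i)) (φ α) = (om a α).map φ

/-- **Row CR6** (critical values; medium). PROOF. F = sext a has degree 6, `F'` degree 5 and leading
coefficient `6 a_0 ≠ 0`, and splits. `resultant_eq_prod_eval` over k[y] for `F'.map C` (natDegree 5,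
roots = image of the roots θ_1..θ_5 of F' under C, it splits) : `crit a = C ((6 a_0)^6) prod_i (X - C (F(θ_i)))`.
Coefficient 0: `(6 a_0)^6 prod (-F(θ_i))`, zero iff some `F(θ_i) = 0`. Coefficient 1 = derivative at 0:
`(6 a_0)^6 sum_i prod_(l ≠ i) (-F(θ_l))`. If exactly one index i has `F(θ_i) = 0`, it is not zero; if two
indices (equal or different values θ) have, then `X^2 ∣ crit a` and it is zero. Exactly one index: θ is the
only common root of F and F', and a simple root of F' (`F''(θ) ≠ 0`, `rootMultiplicity`). -/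
def Cr6Stmt : Prop :=
  ∀ (k : Type) [Field k] [IsAlgClosed k] (a : Fin 7 → k), (6 : k) ≠ 0 → a 0 ≠ 0 →
    (d6 a = 0 ↔ ∃ θ : k, (sext a).eval θ = 0 ∧ (derivative (sext a)).eval θ = 0) ∧
    ((d6 a = 0 ∧ e6 a ≠ 0) ↔ OneNode (sext a))

/-- **Row SF6** (squarefree fibres; uses NA6, CR6; easy-medium). PROOF. (1) If a 0 = 0, then
`natDegree (F'.map C) < 5` and `natDegree (C X - F.map C) < 6` (as polynomial in x), so crit a = 0
(`resultant_eq_zero_of_lt_lt`). So a 0 ≠ 0, degree 6. NA6 with ℤ → ℂ (or an algebraic closure of ℚ) and CR6: F and F'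
have no common complex root, so F is separable over ℚ (`separable_iff_..`, coprime iff no common root), squarefree.
(2) a 0 ≠ 0 as the degree is 6; a common root θ would give `(X - C θ)^2 ∣ F`; CR6. -/
def Sf6Stmt : Prop :=
  (∀ a : Fin 7 → ℤ, d6 a ≠ 0 → a 0 ≠ 0 ∧ ((sext a).map (Int.castRingHom ℚ)).natDegree = 6 ∧
    Squarefree ((sext a).map (Int.castRingHom ℚ))) ∧
  ∀ a : Fin 7 → ℂ, (sext a).natDegree = 6 → a 0 ≠ 0 ∧ (Squarefree (sext a) → d6 a ≠ 0)

/-- **Row MD6** (total degrees; easy). PROOF. As MDG (`Helper40_TTC/MDG.lean`, lemma `res_deg`): the entries of the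
Sylvester matrix (11 x 11) are polynomials in y with coefficients 0, 1, or multiples of the F_i, all of total
degree <= k; so all coefficients (in y) of crit F have total degree <= 11 k (property `∀ n, (P.coeff n).totalDegree
<= l` for P in `(MvPolynomial _ ℤ)[X]`: closed under sums, products add the bounds, determinant). -/
def Md6Stmt : Prop :=
  ∀ (m k : ℕ) (F : Fin 7 → MvPolynomial (Fin (m + 1)) ℤ), (∀ i, (F i).totalDegree ≤ k) →
    (d6 F).totalDegree ≤ 12 * k ∧ (e6 F).totalDegree ≤ 12 * k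

/-- **Row BN6** (sizes; easy-medium). PROOF. As BNF (`Helper27_TTC/BNF.lean`, class Gd): the coefficients (in y) of
crit F are universal integer polynomials in F_0..F_6 of bounded degree. -/
def Bn6Stmt : Prop :=
  ∀ k : ℕ, ∃ A : ℕ, ∀ (H : ℕ) (F : Fin 7 → ℤ[X]), 1 ≤ H → (∀ i, Siz k H (F i)) →
    Siz A (A * (H : ℤ) ^ A) (d6 F) ∧ Siz A (A * (H : ℤ) ^ A) (e6 F)

/-- **Row OM1** (easy-medium). PROOF. Monic of degree 5 by its form. `β = a_0 α` is integral (root of the
monic `x^6 + a_1 x^5 + a_2 a_0 x^4 + .. + a_6 a_0^5`). `T_j = sum_(i >= j) binom(i, j) a_(6-i) α^(i-j)`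
(`taylor_coeff`, hasseDeriv), so `a_0^(6-j) T_j` is integral for j <= 6 (polynomial in a and β with integer
coefficients). The coefficient `T_j T_1^(j-2) a_0^(4(j-1))`, j = 2..6: `(6 - j) + 5 (j - 2) = 4 (j - 1)`. -/
def Om1Stmt : Prop :=
  ∀ (K : Type) [Field K] [NumberField K] (a : Fin 7 → ℤ) (α : K), a 0 ≠ 0 →
    ((sext a).map (Int.castRingHom K)).eval α = 0 →
    (om (fun i => ((a i : ℤ) : K)) α).Monic ∧ (om (fun i => ((a i : ℤ) : K)) α).natDegree = 5 ∧
    ∀ n, IsIntegral ℤ ((om (fun i => ((a i : ℤ) : K)) α).coeff n)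

/-- **Row OM2** (the node of the odd model; medium). PROOF. `T_j` Taylor coefficients at α, `T_0 = F(α) = 0`,
`c = T_1 = F'(α) ≠ 0`, `T_6 = a_0`, `e = a_0^4 c ≠ 0`, f = om a α. `Q(X) = sum_(j=1..6) T_j e^j X^(6-j)
= a_0^4 c^2 f(X)` (compare coefficients: `T_j e^j = a_0^4 c^2 (T_j c^(j-2) a_0^(4(j-1)))`; j = 1: `c e = a_0^4 c^2`).
f(0) ≠ 0, so all roots are ≠ 0. For X ≠ 0 and `x = α + e/X`: `Q(X) = X^6 F(x)`,
`Q'(X) = 6 X^5 F(x) - e X^4 F'(x)`, `Q''(X) = 30 X^4 F(x) - 10 e X^3 F'(x) + e^2 X^2 F''(x)` (finite sums; `ring`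
after `F(x) = sum T_j (e/X)^j` and the same for `F'`, `F''`). If f, f', f'' vanish at X₀ then F, F', F'' vanish at x:
contradiction to OneNode. The double root θ of F is not α (`F'(α) ≠ 0`); `X₀ = e/(θ - α)` is a common root of
f and f'. -/
def Om2Stmt : Prop :=
  ∀ (k : Type) [Field k] [IsAlgClosed k] (a : Fin 7 → k) (α : k), (6 : k) ≠ 0 → a 0 ≠ 0 →
    (sext a).eval α = 0 → (derivative (sext a)).eval α ≠ 0 → OneNode (sext a) →
    (∀ z : k, ¬ ((om a α).eval z = 0 ∧ (derivative (om a α)).eval z = 0 ∧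
      (derivative (derivative (om a α))).eval z = 0)) ∧
    ∃ z : k, (om a α).eval z = 0 ∧ (derivative (om a α)).eval z = 0

/-- **Row SIM** (a place at which α is a simple root; medium-strong; uses NA6, CR6). PROOF.
`k = AlgebraicClosure (ZMod p)`; p does not divide 6 a_0 (factor of e6), NA6 for ℤ → k and CR6: the reduction Fbar has
exactly one multiple root θ and `Fbar''(θ) ≠ 0`. `β = a_0 α` is integral, root of
`G = x^6 + a_1 x^5 + a_2 a_0 x^4 + a_3 a_0^2 x^3 + a_4 a_0^3 x^2 + a_5 a_0^4 x + a_6 a_0^5` (`G(a_0 x) = a_0^5 F(x)`,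
`G'(a_0 x) = a_0^4 F'(x)`, `G''(a_0 x) = a_0^3 F''(x)`). `μ = minpoly ℤ β`, monic of degree
n = degree of `minpoly ℚ α` >= 3, `μ ∣ G` (`minpoly.isIntegrallyClosed_dvd`). CLAIM: μbar has a root ω in k with
`Gbar'(ω) ≠ 0`. Otherwise all roots of μbar are common roots of Gbar, Gbar', so equal to `ω₀ = a_0 θ`, `μbar = (x - ω₀)^n`,
`(x - ω₀)^3 ∣ Gbar`, `Gbar''(ω₀) = 0`, `Fbar''(θ) = 0`: contradiction. Let `R = AdjoinRoot μ` (or the subring ℤ[β]),
`R → k`, x ↦ ω, with kernel the prime q; `R → 𝓞 K`, x ↦ β, is injective (μ divides every integer polynomial with root β)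
and 𝓞 K is integral over R. Lying over (`Ideal.exists_ideal_over_prime_of_isIntegral`, or
`Ideal.exists_ideal_over_prime_of_isIntegral_of_isDomain`): a prime Q of 𝓞 K over q; `p ∈ Q`, so Q is maximal,
v the corresponding place (see `Helper40_TTC/PLC.lean`, `ex_place`). `G'(β) ∉ Q` as `Gbar'(ω) ≠ 0`. So `v (G'(β)) = 1`,
`v a_0 = 1`, `G'(β) = a_0^4 F'(α)`. -/
def SimStmt : Prop :=
  ∀ (K : Type) [Field K] [NumberField K] (a : Fin 7 → ℤ) (α : K) (p : ℕ), p.Prime →
    (p : ℤ) ∣ d6 a → ¬ (p : ℤ) ∣ e6 a → ((sext a).map (Int.castRingHom K)).eval α = 0 →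
    3 ≤ (minpoly ℚ α).natDegree →
    ∃ v : FinitePlace K, v (p : K) < 1 ∧
      v ((derivative ((sext a).map (Int.castRingHom K))).eval α) = 1

/-- **Row LO6** (the place is good for the odd model; medium-strong; uses NA6, CR6, OM2). PROOF. O = {x | v x <= 1}
(`v.val`, nonarchimedean), κ its residue field, k an algebraic closure of κ, ρ : O → κ → k, kernel {v x < 1}.
Integers lie in O; p ↦ 0, p does not divide 6 a_0, so `v 6 = v a_0 = 1` (Bezout with p). `α ∈ O`, because a_0 α is integral over ℤ. NA6 for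
ℤ → k: `d6 abar = 0`, `e6 abar ≠ 0`; CR6: OneNode. `Fbar(ρ α) = 0`, `Fbar'(ρ α) ≠ 0` as `v (F'(α)) = 1`. f = om a α is the
image of `om a α` over O (NA6 for O → K), and `fbar = om abar (ρ α)` (NA6 for O → k). OM2: fbar, fbar', fbar'' have no
common root in k, so over κ the ideal generated by the three reductions is 1 (a common nonconstant factor would have a root in k);
lift the coefficients of the Bezout identity to O: CubeFree (its `v 2 = 1` from v 6 = 1). fbar has a double root, so `discr fbar = 0`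
(`resultant_deriv`, not coprime; monic, degree 5 kept by the reduction), and `discr f ∈ O` reduces to it: `v (discr f) < 1`. -/
def Lo6Stmt : Prop :=
  ∀ (K : Type) [Field K] [NumberField K] (v : FinitePlace K) (a : Fin 7 → ℤ) (α : K) (p : ℕ),
    p.Prime → v (p : K) < 1 → (p : ℤ) ∣ d6 a → ¬ (p : ℤ) ∣ e6 a →
    ((sext a).map (Int.castRingHom K)).eval α = 0 →
    v ((derivative ((sext a).map (Int.castRingHom K))).eval α) = 1 →
    KDD.CubeFree v.val (om (fun i => ((a i : ℤ) : K)) α) ∧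
      v (discr (om (fun i => ((a i : ℤ) : K)) α)) < 1

/-- **Row HT6** (height of the odd model; easy-medium). PROOF. Fix an infinite place. A complex root x of F satisfies
`|x| <= 1 + M` (|a_0| >= 1, the other coefficients are at most M), so `|α| <= 1 + M`,
`|T_j| <= 64 * 7 M (1+M)^6`, and all coefficients of om are at most `A₀ (4M)^(A₀)`; a complex root of the
(monic) odd model is at most `1 + max` of the coefficients; the spread `SZT.spr` is at most twice this
`<= (4M)^A` (4M >= 4). Sum over the infinite places as in `Helper40_TTC/SPR.lean`. (NA6-type fact: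
`(om a α).map w.embedding = om a (w α)`; take NA6 as hypothesis.) -/
def Ht6Stmt : Prop :=
  ∃ A : ℕ, ∀ (K : Type) [Field K] [NumberField K] (a : Fin 7 → ℤ) (α : K) (M : ℕ), 1 ≤ M →
    (∀ i, |a i| ≤ (M : ℤ)) → a 0 ≠ 0 → ((sext a).map (Int.castRingHom K)).eval α = 0 →
    SZT.lH (om (fun i => ((a i : ℤ) : K)) α)
      ≤ (Module.finrank ℚ K : ℝ) * (A * Real.log (4 * M))

/-- **Row PL6** (chosen places over given primes; easy). PROOF. As PLC (`Helper40_TTC/PLC.lean`) with the given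
places instead of `ex_place` (`p <= absNorm` because p lies in the maximal ideal, see there). -/
def Pl6Stmt : Prop :=
  ∀ (K : Type) [Field K] [NumberField K] (P : Finset ℕ) (Q : FinitePlace K → Prop),
    (∀ p ∈ P, p.Prime ∧ ∃ v : FinitePlace K, v (p : K) < 1 ∧ Q v) →
    ∃ S : Finset (FinitePlace K), (∀ v ∈ S, Q v) ∧
      ∑ p ∈ P, Real.log p ≤ ∑ v ∈ S, Real.log (Ideal.absNorm v.maximalIdeal.asIdeal)

/-- **Row FA6** (all one-parameter families of sextics; medium; model `Helper92_TTC/FAM.lean`; uses NA6, SF6, BN6,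
FacStmt, Cn2Stmt, OM1, SIM, LO6, HT6, PL6, KDD.H18.KddPStatement). PROOF. As FAM with D = d6 F, E = e6 F: A from BN6, A₁ from
FAC, A₂ = 2 A₁ + 2, ε, C0 from CN2 for A₂ and δ, A₃ from HT6; B from KddP for d and
`ε/(A₃' (k+2) (d+1))`, A₃' = A₃ + 1. Outside the set of CN2 (n₀ = ρ) and `D(t) ≠ 0`, a_i = F_i(t), `d6 a = D(t) ≠ 0`: SF6 gives
degree 6 and squarefree. K, α given. P = the primes dividing φ(t) but not ρ: `p ∣ d6 a`, p does not divide
`e6 a = E(t)`. SIM gives v over p with `v (F'(α)) = 1`, LO6: it is good. PL6 gives S. OM1: monic, degree 5, integral.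
HT6 with `M = (k+1) H^(k+1)`. -/
def Fam6Stmt : Prop :=
  ∀ (d k : ℕ) (δ : ℝ), 0 < δ → ∃ (B : ℕ) (C : ℝ), 0 < C ∧ ∀ (H : ℕ) (F : Fin 7 → ℤ[X]), 1 ≤ H →
    (∀ i, Siz k H (F i)) →
    (∃ t : ℂ, d6 (fun i => aeval t (F i)) ≠ 0) →
    (∃ t : ℂ, d6 (fun i => aeval t (F i)) = 0 ∧ e6 (fun i => aeval t (F i)) ≠ 0) →
    ({t : ℤ | |t| ≤ (H : ℤ) ∧ ¬ Good6 d B (fun i => (F i).eval t)}.ncard : ℝ)
      ≤ C * (H : ℝ) ^ δ

/-- the algebraic form of the hypothesis on the family -/
def Nodal6 {m : ℕ} (F : Fin 7 → MvPolynomial (Fin (m + 1)) ℤ) : Prop :=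
  (∃ t : Fin (m + 1) → ℂ, d6 (fun i => MvPolynomial.aeval t (F i)) ≠ 0) ∧
  ∃ t : Fin (m + 1) → ℂ, d6 (fun i => MvPolynomial.aeval t (F i)) = 0 ∧
    e6 (fun i => MvPolynomial.aeval t (F i)) ≠ 0

/-- **Row LI6** (lines; model `Helper30_TTC/LIN.lean`; uses NA6, Sb1, Sb2, Dir, Ndg, MD6, Lsz, Fam6Stmt). PROOF. As LIN, simpler:
`L = 12 k + 1`, `K = (12 k)^2`, P = (d6 F).map, E = (e6 F).map; Nodal6 gives the points t₁ (P(t₁) ≠ 0), t₀ (P(t₀) = 0, E(t₀) ≠ 0) by
NA6, and the two hypotheses of Fam6Stmt are again conditions on d6, e6. -/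
def Lin6Stmt : Prop :=
  ∀ (d k m : ℕ) (δ : ℝ), 0 < δ → ∃ (B L K : ℕ) (C : ℝ), 0 < C ∧ 1 ≤ L ∧
    ∀ (H : ℕ) (F : Fin 7 → MvPolynomial (Fin (m + 1)) ℤ) (i₀ : Fin (m + 1)), 1 ≤ H →
    (∀ i, MSiz k H (F i)) → Nodal6 F →
    ∃ (a : Fin m → ℕ) (R : MvPolynomial (Fin m) ℂ), (∀ j, a j ≤ L) ∧ R ≠ 0 ∧ R.totalDegree ≤ K ∧
      ∀ b : Fin m → ℤ, (∀ j, |b j| ≤ 2 * (L : ℤ) * H) →
        MvPolynomial.eval (fun j => ((b j : ℤ) : ℂ)) R ≠ 0 →
        ({s : ℤ | |s| ≤ (H : ℤ) ∧
          ¬ Good6 d B (fun i => MvPolynomial.eval (pt i₀ a s b) (F i))}.ncard : ℝ)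
          ≤ C * (H : ℝ) ^ δ

/-- **Row MU6** (union bound; model `Helper49_TTC/MUL.lean`, same proof; uses Sb1, Szb, Lin6Stmt). -/
def Mul6Stmt : Prop :=
  ∀ (d k m : ℕ) (δ : ℝ), 0 < δ → ∃ (B : ℕ) (C : ℝ), 0 < C ∧
    ∀ (H : ℕ) (F : Fin 7 → MvPolynomial (Fin (m + 1)) ℤ) (T : Fin (m + 1) → ℕ) (i₀ : Fin (m + 1)),
    (∀ i, 1 ≤ T i ∧ T i ≤ H ∧ T i₀ ≤ T i) → (∀ i, MSiz k H (F i)) → Nodal6 F →
    ({t : Fin (m + 1) → ℤ | (∀ i, |t i| ≤ (T i : ℤ)) ∧
        ¬ Good6 d B (fun i => MvPolynomial.eval t (F i))}.ncard : ℝ) * (T i₀ : ℝ)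
      ≤ C * (H : ℝ) ^ δ * ∏ i, (T i : ℝ)

end Pool.Agent.TTC
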